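import Mathlib

namespace Pool.Agent.Results.MP_16faa7_an.Convex

open Set Real

def S (γ α : ℝ) : Set ℝ := {β | 0 < β ∧ ∀ z ∈ Ioo (0 : ℝ) 1, γ * z ^ (β - α) * (1 - z ^ α) ≤ 1 - z}

theorem ne {γ α : ℝ} (hγ : 1 < γ) (h : α ∈ Ioo 0 (1 / γ)) : α + 1 ∈ S γ α := by
  refine ⟨by linarith [h.1], fun z hz => ?_⟩
  have h1 : γ * α < 1 := by rw [mul_comm]; exact (lt_div_iff₀ (by linarith)).1 h.2
  have h2 := add_one_le_exp (log z * α)
  have h3 := one_sub_inv_le_log_of_pos hz.1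
  have h4 : z * (1 - z⁻¹) = z - 1 := by rw [mul_sub, mul_inv_cancel₀ hz.1.ne', mul_one]
  have h5 : z - 1 ≤ z * log z := h4 ▸ mul_le_mul_of_nonneg_left h3 hz.1.le
  rw [add_sub_cancel_left, rpow_one, rpow_def_of_pos hz.1]
  have h6 : z * (1 - exp (log z * α)) ≤ α * (1 - z) := by nlinarith [hz.1, h.1]
  nlinarith [hz.2, mul_le_mul_of_nonneg_left h6 (by linarith : 0 ≤ γ)]

theorem mix {γ a b x y s t : ℝ} (hγ : 1 < γ) (ha : 0 < a) (hb : 0 < b) (hs : 0 ≤ s) (ht : 0 ≤ t)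
    (e : s + t = 1) (hx : x ∈ S γ a) (hy : y ∈ S γ b) : s * x + t * y ∈ S γ (s * a + t * b) := by
  have pos : ∀ {a b : ℝ}, 0 < a → 0 < b → 0 < s * a + t * b := fun {a b} ha hb => by
    rcases hs.eq_or_lt with h | h
    · rw [← h, zero_add] at e; rw [← h, e]; linarith
    · positivity
  refine ⟨pos hx.1 hy.1, fun z hz => ?_⟩
  obtain ⟨c, hc, c0⟩ : ∃ c, c = s * a + t * b ∧ 0 < c := ⟨_, rfl, pos ha hb⟩
  rw [← hc]
  have z0 := hz.1
  have m : ∀ a : ℝ, 0 < a → z ^ (c / a) ∈ Ioo (0 : ℝ) 1 := fun a ha =>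
    ⟨rpow_pos_of_pos z0 _, rpow_lt_one z0.le hz.2 (by positivity)⟩
  have h1 := hx.2 _ (m a ha)
  have h2 := hy.2 _ (m b hb)
  rw [← rpow_mul z0.le, ← rpow_mul z0.le, div_mul_cancel₀ _ ha.ne'] at h1
  rw [← rpow_mul z0.le, ← rpow_mul z0.le, div_mul_cancel₀ _ hb.ne'] at h2
  have w : s * a / c + t * b / c = 1 := by rw [← add_div, ← hc, div_self c0.ne']
  have g : ∀ p q : ℝ, z ^ (p * (s * a / c) + q * (t * b / c)) ≤
      s * a / c * z ^ p + t * b / c * z ^ q := fun p q => by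
    rw [rpow_add z0, rpow_mul z0.le, rpow_mul z0.le]
    exact geom_mean_le_arith_mean2_weighted (by positivity) (by positivity) (by positivity)
      (by positivity) w
  have g1 := g (c / a) (c / b)
  have g2 := g (c / a * (x - a)) (c / b * (y - b))
  rw [show c / a * (s * a / c) + c / b * (t * b / c) = 1 by field_simp; exact e, rpow_one] at g1
  rw [show c / a * (x - a) * (s * a / c) + c / b * (y - b) * (t * b / c) = s * x + t * y - c by
    field_simp; rw [hc]; ring] at g2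
  have k : 0 ≤ γ * (1 - z ^ c) :=
    mul_nonneg (by linarith) (sub_nonneg.2 (rpow_lt_one z0.le hz.2 c0).le)
  have p1 : 0 ≤ s * a / c := by positivity
  have p2 : 0 ≤ t * b / c := by positivity
  nlinarith [mul_le_mul_of_nonneg_left g2 k, mul_le_mul_of_nonneg_left h1 p1,
    mul_le_mul_of_nonneg_left h2 p2]

theorem result (γ : ℝ) (hγ : 1 < γ) :
    (∀ α ∈ Ioo 0 (1 / γ), (S γ α).Nonempty) ∧ ConvexOn ℝ (Ioo 0 (1 / γ)) fun α => sInf (S γ α) := by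
  refine ⟨fun α h => ⟨_, ne hγ h⟩, convex_Ioo _ _, fun a ha b hb s t hs ht e => ?_⟩
  refine le_of_forall_pos_le_add fun ε hε => ?_
  obtain ⟨x, hx, h1⟩ := exists_lt_of_csInf_lt ⟨_, ne hγ ha⟩ (lt_add_of_pos_right _ hε)
  obtain ⟨y, hy, h2⟩ := exists_lt_of_csInf_lt ⟨_, ne hγ hb⟩ (lt_add_of_pos_right _ hε)
  refine (csInf_le ⟨0, fun _ h => h.1.le⟩ (mix hγ ha.1 hb.1 hs ht e hx hy)).trans ?_
  simp only [smul_eq_mul]
  nlinarith [mul_le_mul_of_nonneg_left h1.le hs, mul_le_mul_of_nonneg_left h2.le ht]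

end Pool.Agent.Results.MP_16faa7_an.Convex
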